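import Pool.Agent.R358.BC.Gr

/-! The proposed characterisation of the graphs attaining the ratio 5/4 fails. -/

set_option autoImplicit false

namespace Pool.Agent.Results.MP_08edbb_co.OddNumberOfPairs

open Pool.Agent.R358.BC

/-- The stated equivalence fails for some finite graph without isolated vertices; in fact there is a
connected graph with 19 vertices and broadcast irredundance number 6 (so that the broadcast number
is not 5/4 times it) all of whose minimum maximal irredundant broadcasts consist of ones on the
vertices of an induced disjoint union of complete graphs on two vertices. -/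
theorem result :
    ¬ (∀ (V : Type) [Fintype V] [DecidableEq V] (G : SimpleGraph V), (∀ v, ∃ w, G.Adj v w) →
        (4 * broadcastNumber G = 5 * irNumber G ↔ ∀ f, IsIrBroadcast G f → Good G f)) ∧
      ∃ G : SimpleGraph (Fin 19), G.Connected ∧ irNumber G = 6 ∧
        4 * broadcastNumber G ≠ 5 * irNumber G ∧ ∀ f, IsIrBroadcast G f → Good G f := by
  have hne : 4 * broadcastNumber G0 ≠ 5 * irNumber G0 := by
    rw [ir_six]
    omega
  refine ⟨fun h => ?_, G0, G0_connected, ir_six, hne, all_good⟩
  refine hne ((h (Fin 19) G0 ?_).2 all_good)
  intro v
  have hd : ∀ v : Fin 19, ∃ w : Fin 19, d v w = 1 := by decide +kernel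
  exact hd v

end Pool.Agent.Results.MP_08edbb_co.OddNumberOfPairs
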